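import Pool.Agent.Lib.MP_391708_nt.X.SpecBR
import Pool.Agent.Lib.MP_391708_nt.MR.Basic

/-!
# Theorem X (MP_391708), part BR, module BRG: the bridge `MulChar` <-> `ChiG`
-/

set_option autoImplicit false

namespace Pool.Agent.Lib.MP391708.X

open Pool.Agent.Lib.MP391708.MR
open Finset Filter Topology
open scoped ComplexConjugate

namespace BRGM

lemma md_eq (t : ℕ) : XV.md t = ((t : ℕ) : Gi) := by
  unfold XV.md
  exact Int.cast_natCast t

lemma md_ne {t : ℕ} (ht : 1 ≤ t) : XV.md t ≠ 0 := by
  rw [md_eq]
  exact_mod_cast (by omega : t ≠ 0)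

lemma chiG {t : ℕ} (ht : 1 ≤ t) (χ : MulChar (Cls.RR (XV.md t)) ℂ) :
    ChiG (XV.md t) (fn t χ) where
  ne := md_ne ht
  one := by
    unfold fn
    rw [map_one, map_one]
  mul x y := by
    unfold fn
    rw [map_mul, map_mul]
  period x y := by
    unfold fn
    congr 1
    rw [Cls.mk_eq_iff]
    exact ⟨y, by ring⟩
  supp x := by
    unfold fn
    rw [← Cls.isUnit_mk]
    constructor
    · intro h
      by_contra hu
      exact h (χ.map_nonunit hu)
    · intro h
      exact (h.map χ).ne_zero

/-- the `MulChar` of a `ChiG` -/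
noncomputable def back {t : ℕ} {χ : Gi → ℂ} (h : ChiG (XV.md t) χ) :
    MulChar (Cls.RR (XV.md t)) ℂ where
  toFun := fun r => χ (Function.surjInv Ideal.Quotient.mk_surjective r)
  map_one' := by
    have h1 := Function.surjInv_eq (Ideal.Quotient.mk_surjective (I := Ideal.span {XV.md t}))
      (1 : Cls.RR (XV.md t))
    have h2 : (1 : Cls.RR (XV.md t)) = Ideal.Quotient.mk (Ideal.span {XV.md t}) 1 := (map_one _).symm
    set s := Function.surjInv (Ideal.Quotient.mk_surjective (I := Ideal.span {XV.md t}))
      (1 : Cls.RR (XV.md t)) with hs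
    rw [h2, Cls.mk_eq_iff] at h1
    obtain ⟨c, hc⟩ := h1
    have h3 : s = 1 + XV.md t * c := by rw [← hc]; ring
    rw [h3, h.period, h.one]
  map_mul' := by
    intro x y
    have hxy := Function.surjInv_eq (Ideal.Quotient.mk_surjective (I := Ideal.span {XV.md t})) (x * y)
    have hx := Function.surjInv_eq (Ideal.Quotient.mk_surjective (I := Ideal.span {XV.md t})) x
    have hy := Function.surjInv_eq (Ideal.Quotient.mk_surjective (I := Ideal.span {XV.md t})) y
    set a := Function.surjInv (Ideal.Quotient.mk_surjective (I := Ideal.span {XV.md t})) (x * y)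
    set b := Function.surjInv (Ideal.Quotient.mk_surjective (I := Ideal.span {XV.md t})) x
    set c := Function.surjInv (Ideal.Quotient.mk_surjective (I := Ideal.span {XV.md t})) y
    have h1 : Ideal.Quotient.mk (Ideal.span {XV.md t}) a =
        Ideal.Quotient.mk (Ideal.span {XV.md t}) (b * c) := by
      rw [map_mul, hxy, hx, hy]
    rw [Cls.mk_eq_iff] at h1
    obtain ⟨d, hd⟩ := h1
    have h3 : a = b * c + XV.md t * d := by rw [← hd]; ring
    rw [h3, h.period, h.mul]
  map_nonunit' := by
    intro x hx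
    have hx' := Function.surjInv_eq (Ideal.Quotient.mk_surjective (I := Ideal.span {XV.md t})) x
    set b := Function.surjInv (Ideal.Quotient.mk_surjective (I := Ideal.span {XV.md t})) x
    by_contra h1
    have h2 := (h.supp b).1 h1
    rw [← Cls.isUnit_mk, hx'] at h2
    exact hx h2

lemma fn_back {t : ℕ} {χ : Gi → ℂ} (h : ChiG (XV.md t) χ) : fn t (back h) = χ := by
  funext z
  have hz := Function.surjInv_eq (Ideal.Quotient.mk_surjective (I := Ideal.span {XV.md t}))
    (Ideal.Quotient.mk (Ideal.span {XV.md t}) z)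
  have h0 : fn t (back h) z = χ (Function.surjInv (Ideal.Quotient.mk_surjective
    (I := Ideal.span {XV.md t})) (Ideal.Quotient.mk (Ideal.span {XV.md t}) z)) := rfl
  rw [h0]
  set b := Function.surjInv (Ideal.Quotient.mk_surjective (I := Ideal.span {XV.md t}))
    (Ideal.Quotient.mk (Ideal.span {XV.md t}) z)
  rw [Cls.mk_eq_iff] at hz
  obtain ⟨c, hc⟩ := hz
  have h3 : b = z + XV.md t * c := by rw [← hc]; ring
  rw [h3, h.period]

end BRGM

open BRGM in
theorem specBRG : SpecBRG := by
  intro t ht
  rw [← md_eq t]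
  refine ⟨fun χ => chiG ht χ, fun χ h => ⟨back h, fn_back h⟩, ?_, ?_⟩
  · intro χ χ' h
    refine MulChar.ext' fun r => ?_
    obtain ⟨z, rfl⟩ := Ideal.Quotient.mk_surjective r
    exact congrFun h z
  · intro χ k S f
    unfold XV.hat
    refine Finset.sum_congr rfl fun z _ => ?_
    unfold hk fn
    ring

end Pool.Agent.Lib.MP391708.X
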