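import Pool.Agent.Lib.MP_391708_nt.X.SpecBR

/-!
# THEOREM X (MP_391708), part BR, module CND: equivalent characters modulo `t₁` and `t₂` come from
the greatest common divisor (helper94)
-/

set_option autoImplicit false

namespace Pool.Agent.Lib.MP391708.X

open Pool.Agent.Lib.MP391708.MR

namespace CNDM

/-- (1) of the proof. -/
theorem same {m₁ m₂ g a b : Gi} {χ₁ χ₂ : Gi → ℂ} (h1 : ChiG m₁ χ₁) (h2 : ChiG m₂ χ₂)
    (h12 : Eqv χ₁ χ₂) (hg : g = m₁ * a + m₂ * b) {z z' v : Gi} (hv : z' = z + g * v)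
    (a1 : χ₁ z ≠ 0) (b1 : χ₁ z' ≠ 0) (b2 : χ₂ z' ≠ 0) : χ₁ z' = χ₁ z := by
  have e1 : χ₁ (z + m₁ * (a * v)) = χ₁ z := h1.period z (a * v)
  have e0 : z + m₁ * (a * v) = z' + m₂ * (-(b * v)) := by
    rw [hv, hg]
    ring
  have e2 : χ₂ (z + m₁ * (a * v)) = χ₂ z' := by
    rw [e0]
    exact h2.period z' _
  have e3 : χ₁ (z + m₁ * (a * v)) = χ₂ (z + m₁ * (a * v)) :=
    h12 _ (by rw [e1]; exact a1) (by rw [e2]; exact b2)
  rw [h12 z' b1 b2, ← e2, ← e3, e1]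

end CNDM

open CNDM in
open scoped Classical in
/-- **CND**: equivalent characters come from the greatest common divisor of the moduli. -/
theorem specCND (hLFT : SpecLFT) : SpecCND := by
  intro t₁ t₂ χ₁ χ₂ ht₁ ht₂ h1 h2 h12
  obtain ⟨g, hgd⟩ : ∃ g : Gi, g = ((Nat.gcd t₁ t₂ : ℕ) : Gi) := ⟨_, rfl⟩
  obtain ⟨m₁, hm₁⟩ : ∃ m : Gi, m = ((t₁ : ℕ) : Gi) := ⟨_, rfl⟩
  obtain ⟨m₂, hm₂⟩ : ∃ m : Gi, m = ((t₂ : ℕ) : Gi) := ⟨_, rfl⟩
  rw [← hm₁] at h1
  rw [← hm₂] at h2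
  rw [← hgd]
  have hg : g = m₁ * ((Nat.gcdA t₁ t₂ : ℤ) : Gi) + m₂ * ((Nat.gcdB t₁ t₂ : ℤ) : Gi) := by
    have := congrArg (fun n : ℤ => (n : Gi)) (Nat.gcd_eq_gcd_ab t₁ t₂)
    push_cast at this
    rw [hgd, hm₁, hm₂]
    exact this
  have g1 : g ∣ m₁ := by
    rw [hgd, hm₁]
    exact Nat.cast_dvd_cast (Nat.gcd_dvd_left t₁ t₂)
  have g2 : g ∣ m₂ := by
    rw [hgd, hm₂]
    exact Nat.cast_dvd_cast (Nat.gcd_dvd_right t₁ t₂)
  have gne : g ≠ 0 := by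
    rintro rfl
    exact h1.ne (zero_dvd_iff.1 g1)
  have hL : ∀ x : Gi, IsCoprime x g → ∃ y : Gi, IsCoprime (x + g * y) (m₁ * m₂) := fun x hx =>
    hLFT g (m₁ * m₂) x (mul_ne_zero h1.ne h2.ne) hx
  choose! Y hY using hL
  have n1 : ∀ x, IsCoprime x g → χ₁ (x + g * Y x) ≠ 0 := fun x hx =>
    (h1.supp _).2 (hY x hx).of_mul_right_left
  have n2 : ∀ x, IsCoprime x g → χ₂ (x + g * Y x) ≠ 0 := fun x hx =>
    (h2.supp _).2 (hY x hx).of_mul_right_right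
  obtain ⟨χ, hχ⟩ : ∃ χ : Gi → ℂ, ∀ x, χ x = if IsCoprime x g then χ₁ (x + g * Y x) else 0 :=
    ⟨fun x => if IsCoprime x g then χ₁ (x + g * Y x) else 0, fun _ => rfl⟩
  have cop : ∀ z : Gi, χ₁ z ≠ 0 → IsCoprime z g := fun z hz =>
    ((h1.supp z).1 hz).of_isCoprime_of_dvd_right g1
  -- lemma B
  have key : ∀ x z v : Gi, z = x + g * v → χ₁ z ≠ 0 → χ₂ z ≠ 0 → χ x = χ₁ z := by
    intro x z v hz a1 a2
    have hx : IsCoprime x g := by
      have := cop z a1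
      rw [hz] at this
      exact IsCoprime.add_mul_left_left_iff.1 this
    rw [hχ, if_pos hx]
    refine (same h1 h2 h12 hg (z := x + g * Y x) (z' := z) (v := v - Y x) ?_ (n1 x hx) a1 a2).symm
    rw [hz]
    ring
  refine ⟨χ, ⟨gne, ?_, ?_, ?_, ?_⟩, ?_, ?_⟩
  · rw [key 1 1 0 (by ring) (by rw [h1.one]; exact one_ne_zero)
      (by rw [h2.one]; exact one_ne_zero), h1.one]
  · intro x y
    by_cases hx : IsCoprime x g
    · by_cases hy : IsCoprime y g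
      · have e : χ x * χ y = χ₁ ((x + g * Y x) * (y + g * Y y)) := by
          rw [hχ x, hχ y, if_pos hx, if_pos hy, h1.mul]
        rw [e]
        refine key (x * y) _ (x * Y y + y * Y x + g * Y x * Y y) (by ring) ?_ ?_
        · rw [h1.mul]
          exact mul_ne_zero (n1 x hx) (n1 y hy)
        · rw [h2.mul]
          exact mul_ne_zero (n2 x hx) (n2 y hy)
      · rw [hχ (x * y), hχ y, if_neg hy, if_neg (fun h => hy h.of_mul_left_right), mul_zero]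
    · rw [hχ (x * y), hχ x, if_neg hx, if_neg (fun h => hx h.of_mul_left_left), zero_mul]
  · intro x y
    by_cases hx : IsCoprime x g
    · rw [hχ x, if_pos hx]
      exact key (x + g * y) (x + g * Y x) (Y x - y) (by ring) (n1 x hx) (n2 x hx)
    · rw [hχ x, hχ (x + g * y), if_neg hx,
        if_neg (fun h => hx (IsCoprime.add_mul_left_left_iff.1 h))]
  · intro x
    constructor
    · intro h
      by_contra hx
      apply h
      rw [hχ, if_neg hx]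
    · intro hx
      rw [hχ, if_pos hx]
      exact n1 x hx
  · intro z hz
    obtain ⟨y, hy⟩ := hLFT m₁ m₂ z h2.ne ((h1.supp z).1 hz)
    obtain ⟨k, hk⟩ := g1
    have e1 : χ₁ (z + m₁ * y) = χ₁ z := h1.period z y
    rw [key z (z + m₁ * y) (k * y) (by rw [hk]; ring) (by rw [e1]; exact hz) ((h2.supp _).2 hy), e1]
  · intro z hz
    obtain ⟨y, hy⟩ := hLFT m₂ m₁ z h1.ne ((h2.supp z).1 hz)
    obtain ⟨k, hk⟩ := g2
    have e2 : χ₂ (z + m₂ * y) = χ₂ z := h2.period z y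
    have a1 : χ₁ (z + m₂ * y) ≠ 0 := (h1.supp _).2 hy
    have a2 : χ₂ (z + m₂ * y) ≠ 0 := by rw [e2]; exact hz
    rw [key z (z + m₂ * y) (k * y) (by rw [hk]; ring) a1 a2, h12 _ a1 a2, e2]

end Pool.Agent.Lib.MP391708.X
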