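import Pool.Agent.Lib.MP_391708_nt.X.SpecBR
import Pool.Agent.Lib.MP_391708_nt.MR.Basic

/-!
# Theorem X, part BR, module CNM (helper16): the minimal rational modulus of a class of characters
-/

set_option autoImplicit false

namespace Pool.Agent.Lib.MP391708.X

open Pool.Agent.Lib.MP391708.MR
open Finset Filter Topology
open scoped ComplexConjugate

theorem specCNM (hEQT : SpecEQT) (hCND : SpecCND) : SpecCNM := by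
  classical
  intro t χ ht hχ
  have hex : ∃ f : ℕ, 0 < f ∧ ∃ χ₀ : Gi → ℂ, ChiG ((f : ℕ) : Gi) χ₀ ∧ Eqv χ χ₀ :=
    ⟨t, ht, χ, hχ, fun z _ _ => rfl⟩
  obtain ⟨hf0, χ₀, hχ₀, he⟩ := Nat.find_spec hex
  have hmin : ∀ g : ℕ, 0 < g → ∀ χ₁ : Gi → ℂ, ChiG ((g : ℕ) : Gi) χ₁ → Eqv χ χ₁ →
      Nat.find hex ≤ g := fun g hg χ₁ h1 h2 => Nat.find_min' hex ⟨hg, χ₁, h1, h2⟩
  generalize Nat.find hex = f at hf0 hχ₀ hmin
  refine ⟨f, χ₀, hf0, hχ₀, he, hmin t ht χ hχ (fun z _ _ => rfl), fun t' χ' ht' hχ' he' => ?_⟩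
  obtain ⟨χ₂, h1, h2, h3⟩ := hCND f t' χ₀ χ' hf0 ht' hχ₀ hχ' he'
  have h4 : Eqv χ₀ χ₂ := fun z hz _ => (h2 z hz).symm
  have h5 : Eqv χ χ₂ := hEQT _ _ _ χ χ₀ χ₂ hχ hχ₀ h1 he h4
  have h6 := hmin (Nat.gcd f t') (Nat.gcd_pos_of_pos_left _ hf0) χ₂ h1 h5
  have h7 : Nat.gcd f t' = f := le_antisymm (Nat.le_of_dvd hf0 (Nat.gcd_dvd_left _ _)) h6
  have h8 : f ∣ t' := by
    rw [← h7]
    exact Nat.gcd_dvd_right _ _
  refine ⟨h8, fun z hz => ?_⟩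
  have h9 : IsCoprime z ((t' : ℕ) : Gi) := (hχ'.supp z).1 hz
  have h10 : ((f : ℕ) : Gi) ∣ ((t' : ℕ) : Gi) := Nat.cast_dvd_cast h8
  have h11 : χ₀ z ≠ 0 := (hχ₀.supp z).2 (h9.of_isCoprime_of_dvd_right h10)
  exact (he' z h11 hz).symm

end Pool.Agent.Lib.MP391708.X
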