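import Pool.Agent.Lib.MP_391708_nt.X.SpecBR
import Pool.Agent.Lib.MP_391708_nt.MR.Basic

/-!
# THEOREM X (MP_391708), module CSM
-/

set_option autoImplicit false

namespace Pool.Agent.Lib.MP391708.X

open Pool.Agent.Lib.MP391708.MR
open Finset Filter Topology
open scoped ComplexConjugate

theorem specCSM : SpecCSM := by
  intro f T hf hT
  have hf0 : (0 : ℝ) < f := by exact_mod_cast hf
  have h1 : ∑ t ∈ (Icc 1 T).filter (fun t => f ∣ t), 1 / (t : ℝ) ≤
      ∑ s ∈ Icc 1 T, 1 / ((f : ℝ) * s) := by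
    have h2 : ∑ t ∈ (Icc 1 T).filter (fun t => f ∣ t), 1 / (t : ℝ) =
        ∑ s ∈ ((Icc 1 T).filter (fun t => f ∣ t)).image (fun t => t / f), 1 / ((f : ℝ) * s) := by
      rw [sum_image]
      · refine sum_congr rfl fun t ht => ?_
        obtain ⟨s, rfl⟩ := (mem_filter.1 ht).2
        rw [Nat.mul_div_cancel_left s hf]
        push_cast
        rfl
      · intro a ha b hb hab
        obtain ⟨s, rfl⟩ := (mem_filter.1 ha).2
        obtain ⟨s', rfl⟩ := (mem_filter.1 hb).2
        simp only [Nat.mul_div_cancel_left _ hf] at hab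
        rw [hab]
    rw [h2]
    apply sum_le_sum_of_subset_of_nonneg
    · intro s hs
      obtain ⟨t, ht, rfl⟩ := mem_image.1 hs
      obtain ⟨ht1, ⟨s, rfl⟩⟩ := mem_filter.1 ht
      rw [Nat.mul_div_cancel_left s hf]
      rw [mem_Icc] at ht1 ⊢
      constructor
      · rcases Nat.eq_zero_or_pos s with h | h
        · rw [h, mul_zero] at ht1
          omega
        · exact h
      · exact (Nat.le_mul_of_pos_left s hf).trans ht1.2
    · intro s _ _
      positivity
  have h3 : ∑ s ∈ Icc 1 T, 1 / ((f : ℝ) * s) = ((harmonic T : ℚ) : ℝ) / f := by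
    rw [harmonic_eq_sum_Icc]
    push_cast
    rw [sum_div]
    refine sum_congr rfl fun s _ => ?_
    rw [one_div, mul_inv, div_eq_mul_inv, mul_comm]
  rw [h3] at h1
  refine h1.trans ?_
  rw [div_le_div_iff_of_pos_right hf0]
  exact harmonic_le_one_add_log T

end Pool.Agent.Lib.MP391708.X
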