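import Pool.Agent.Lib.MP_391708_nt.X.SpecBR

/-!
# THEOREM X (MP_391708), part BR, module EQT: `Eqv` is transitive (helper94)
-/

set_option autoImplicit false

namespace Pool.Agent.Lib.MP391708.X

open Pool.Agent.Lib.MP391708.MR

/-- **EQT**: `Eqv` is transitive. -/
theorem specEQT (hLFT : SpecLFT) : SpecEQT := by
  intro m₁ m₂ m₃ χ₁ χ₂ χ₃ h1 h2 h3 h12 h23 z z1 z3
  obtain ⟨y, hy⟩ := hLFT (m₁ * m₃) m₂ z h2.ne (((h1.supp z).1 z1).mul_right ((h3.supp z).1 z3))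
  have e1 : χ₁ (z + m₁ * m₃ * y) = χ₁ z := by
    rw [mul_assoc]
    exact h1.period z (m₃ * y)
  have e3 : χ₃ (z + m₁ * m₃ * y) = χ₃ z := by
    rw [show m₁ * m₃ * y = m₃ * (m₁ * y) by ring]
    exact h3.period z (m₁ * y)
  have n2 : χ₂ (z + m₁ * m₃ * y) ≠ 0 := (h2.supp _).2 hy
  rw [← e1, ← e3]
  exact (h12 _ (by rw [e1]; exact z1) n2).trans (h23 _ n2 (by rw [e3]; exact z3))

end Pool.Agent.Lib.MP391708.X
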