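import Pool.Agent.Lib.MP_391708_nt.X.SpecBR
import Pool.Agent.Lib.MP_391708_nt.MR.Basic

/-!
# Theorem X, part BR, module ETH (helper16): the transform of `eta`
-/

set_option autoImplicit false

namespace Pool.Agent.Lib.MP391708.X

open Pool.Agent.Lib.MP391708.MR
open Finset Filter Topology
open scoped ComplexConjugate

namespace ETHM

theorem psi_unit {ψ : Gi → ℂ} (hmul : ∀ x y, ψ (x * y) = ψ x * ψ y) (hI : ψ ⟨0, 1⟩ = 1) {u : Gi}
    (hu : nm u = 1) : ψ u = 1 := by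
  have h2 : ψ (-1) = 1 := by
    have h : (-1 : Gi) = ⟨0, 1⟩ * ⟨0, 1⟩ := by decide
    rw [h, hmul, hI, mul_one]
  have h3 : ψ ⟨0, -1⟩ = 1 := by
    have h : (⟨0, -1⟩ : Gi) = -1 * ⟨0, 1⟩ := by decide
    rw [h, hmul, h2, hI, mul_one]
  have h1 : ψ 1 = 1 := by
    have h : (1 : Gi) = -1 * -1 := by decide
    rw [h, hmul, h2, mul_one]
  rcases unit_cases hu with rfl | rfl | rfl | rfl
  exacts [h1, h2, hI, h3]

/-- the units -/
def U4 : Finset Gi := {1, -1, ⟨0, 1⟩, ⟨0, -1⟩}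

theorem card_U4 : U4.card = 4 := by decide

theorem mem_U4 {u : Gi} : u ∈ U4 ↔ nm u = 1 := by
  constructor
  · intro h
    unfold U4 at h
    simp only [Finset.mem_insert, Finset.mem_singleton] at h
    rcases h with rfl | rfl | rfl | rfl <;> simp [nm]
  · intro h
    unfold U4
    simp only [Finset.mem_insert, Finset.mem_singleton]
    exact unit_cases h

open scoped Classical in
theorem sum_assoc {ψ : Gi → ℂ} (hmul : ∀ x y, ψ (x * y) = ψ x * ψ y) (hI : ψ ⟨0, 1⟩ = 1) {X : ℝ}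
    {w : Gi} (hw : w ≠ 0) (hX : (nm w : ℝ) ≤ X) :
    ∑ z ∈ (disc X).filter (fun z => Associated w z), ψ z = 4 * ψ w := by
  have h1 : (disc X).filter (fun z => Associated w z) = U4.image (fun u => w * u) := by
    ext z
    rw [Finset.mem_filter, Finset.mem_image, mem_disc]
    constructor
    · rintro ⟨-, u, rfl⟩
      exact ⟨u, mem_U4.2 (isUnit_iff_nm.1 u.isUnit), rfl⟩
    · rintro ⟨u, hu, rfl⟩
      have h2 := mem_U4.1 hu
      have h3 : IsUnit u := isUnit_iff_nm.2 h2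
      refine ⟨⟨mul_ne_zero hw h3.ne_zero, ?_⟩, ?_⟩
      · rw [nm_mul, h2, mul_one]
        exact hX
      · exact ⟨h3.unit, rfl⟩
  rw [h1, Finset.sum_image (fun a _ b _ hab => mul_left_cancel₀ hw hab)]
  have h4 : ∀ u ∈ U4, ψ (w * u) = ψ w := by
    intro u hu
    rw [hmul, psi_unit hmul hI (mem_U4.1 hu), mul_one]
  rw [Finset.sum_congr rfl h4, Finset.sum_const, card_U4, nsmul_eq_mul]
  norm_num

end ETHM

open ETHM

open scoped Classical in
theorem specETH : SpecETH := by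
  intro p v4 v2 ψ X hmul hI hX
  have hne4 : ∀ π ∈ cell p.h p.M4 (2 * p.M4) v4, π ≠ 0 := fun π h =>
    GP_ne_zero (Finset.mem_filter.1 h).1
  have hne2 : ∀ π ∈ cell p.h p.M2 (2 * p.M2) v2, π ≠ 0 := fun π h =>
    GP_ne_zero (Finset.mem_filter.1 h).1
  have h1 : ∀ z, eta p v4 v2 z * ψ z = ∑ q ∈ cell p.h p.M4 (2 * p.M4) v4 ×ˢ
      cell p.h p.M2 (2 * p.M2) v2, if Associated (q.1 * q.2) z then ψ z else 0 := by
    intro z
    unfold eta
    rw [Finset.natCast_card_filter, Finset.sum_mul]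
    refine Finset.sum_congr rfl fun q _ => ?_
    split_ifs
    · rw [one_mul]
    · rw [zero_mul]
  rw [Finset.sum_congr rfl fun z _ => h1 z, Finset.sum_comm]
  have h2 : ∀ q ∈ cell p.h p.M4 (2 * p.M4) v4 ×ˢ cell p.h p.M2 (2 * p.M2) v2,
      (∑ z ∈ disc X, if Associated (q.1 * q.2) z then ψ z else 0) = ψ q.1 * (4 * ψ q.2) := by
    intro q hq
    rw [Finset.mem_product] at hq
    rw [← Finset.sum_filter, sum_assoc hmul hI (mul_ne_zero (hne4 _ hq.1) (hne2 _ hq.2))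
      (hX _ hq.1 _ hq.2), hmul]
    ring
  rw [Finset.sum_congr rfl h2, Finset.sum_product, Finset.mul_sum, Finset.sum_mul_sum]

end Pool.Agent.Lib.MP391708.X
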