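import Pool.Agent.Lib.MP_391708_nt.X.SpecBR

/-!
# KHD: different characters on a cell
-/

set_option autoImplicit false

namespace Pool.Agent.Lib.MP391708.X

open Pool.Agent.Lib.MP391708.MR
open Finset Filter Topology
open scoped ComplexConjugate

namespace KHDM

lemma nm_natCast (t : ℕ) : nm ((t : ℕ) : Gi) = t ^ 2 := by
  unfold nm
  rw [Zsqrtd.re_natCast, Zsqrtd.im_natCast]
  simp [Int.natAbs_pow]

lemma bd {x c : ℝ} (hx : 1 ≤ x) {t : ℕ} (h : (t : ℝ) ≤ x ^ (c / 2)) :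
    (nm ((t : ℕ) : Gi) : ℝ) ≤ x ^ c := by
  rw [nm_natCast]
  push_cast
  have h1 : x ^ c = (x ^ (c / 2)) ^ 2 := by
    rw [← Real.rpow_natCast, ← Real.rpow_mul (by linarith)]
    congr 1
    push_cast
    ring
  rw [h1]
  exact pow_le_pow_left₀ (Nat.cast_nonneg t) h 2

end KHDM

open KHDM in
theorem specKHD (hRG1 : SpecRG1) (hLCA : SpecLCA) : SpecKHD := by
  classical
  intro A A' hA hA'
  obtain ⟨c, hc0, hc1, h⟩ := hRG1 A A' hA hA'
  refine ⟨c / 2, by positivity, by linarith, ?_⟩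
  filter_upwards [h, eventually_ge_atTop 1] with x hx hx1
  intro i t χ k h w j hi ht hiN htN hik hkx hD hw hh hj
  obtain ⟨y, y', hy0, hyy, hy', _, _, _, hlc⟩ := hLCA h j hh
  have h1 := hx ((t : ℕ) : Gi) ((i.1 : ℕ) : Gi) χ i.2.1 k i.2.2 ht hi (bd hx1 htN) (bd hx1 hiN)
    hkx hik hD w y y' hw hy0 hyy (hy'.trans hj) ((lc h j).filter (rgh w))
    (by intro z; rw [mem_filter, hlc])
  unfold psi
  refine (le_trans (le_of_eq ?_) h1).trans (Real.rpow_le_rpow_of_exponent_le hx1 (by linarith))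
  congr!

end Pool.Agent.Lib.MP391708.X
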