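import Pool.Agent.Lib.MP_391708_nt.X.SpecBR
import Pool.Agent.Lib.MP_391708_nt.MR.Basic

/-!
# Theorem X, part BR, module KHE: equivalent characters

A rough `z` is coprime to the modulus of `i`, so `psi i z` has absolute value `1`.  The term of the sum is
`psi i z * conj (psi i z) = 1` if `z` is coprime to `t` and `0` otherwise, so the difference with the cardinality is
minus the number of the rough `z` which are not coprime to `t`, bounded in NCL.
-/

set_option autoImplicit false

namespace Pool.Agent.Lib.MP391708.X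

open Pool.Agent.Lib.MP391708.MR
open Finset Filter Topology
open scoped ComplexConjugate

namespace KHEM

lemma nm_nat (t : ℕ) : (nm ((t : ℕ) : Gi) : ℝ) = (t : ℝ) ^ 2 := by
  rw [nm_castR]
  simp

/-- a rough element is coprime to every small modulus -/
lemma cop {w : ℝ} {z m : Gi} (hm : m ≠ 0) (hz : rgh w z) (hw : (nm m : ℝ) ≤ w) : IsCoprime z m := by
  refine isCoprime_of_prime_dvd (fun h => hm h.2) fun π hπ hπz hπm => ?_
  have h1 := hz π hπ hπz
  have h2 : nm π ≤ nm m := Nat.le_of_dvd (nm_pos hm) (nm_dvd hπm)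
  have h3 : (nm π : ℝ) ≤ (nm m : ℝ) := by exact_mod_cast h2
  linarith

open scoped Classical in
/-- the terms of the difference -/
lemma term (hNRM : SpecNRM) {i : Ix} {t : ℕ} {χ : Gi → ℂ} {w : ℝ} {z : Gi}
    (hi : ChiG ((i.1 : ℕ) : Gi) i.2.1) (ht : ChiG ((t : ℕ) : Gi) χ) (hiw : (i.1 : ℝ) ^ 2 ≤ w)
    (he : Eqv χ i.2.1) (hz : z ≠ 0) (hr : rgh w z) :
    hk χ i.2.2 z * conj (psi i z) =
      if IsCoprime z ((t : ℕ) : Gi) then 1 else 0 := by
  have hc : IsCoprime z ((i.1 : ℕ) : Gi) := cop hi.ne hr (by rw [nm_nat]; exact hiw)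
  have hne : i.2.1 z ≠ 0 := (hi.supp z).2 hc
  have hn : ‖psi i z‖ = 1 := (hNRM _ _ hi).2.1 i.2.2 z hz hne
  split_ifs with h
  · have hχ : χ z ≠ 0 := (ht.supp z).2 h
    have heq : χ z = i.2.1 z := he z hχ hne
    have h2 : hk χ i.2.2 z = psi i z := by
      unfold psi hk
      rw [heq]
    rw [h2, Complex.mul_conj, Complex.normSq_eq_norm_sq, hn]
    simp
  · have hχ : χ z = 0 := by
      by_contra hcon
      exact h ((ht.supp z).1 hcon)
    unfold hk
    rw [hχ, zero_mul, zero_mul]

end KHEM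

open scoped Classical in
/-- KHE -/
theorem specKHE (hNRM : SpecNRM) (hNCL : SpecNCL) : SpecKHE := by
  obtain ⟨C, hC, hN⟩ := hNCL
  refine ⟨C, hC, ?_⟩
  intro i t χ h w j hi ht hiw he hh hw
  have ht0 : 0 < t := by
    rcases Nat.eq_zero_or_pos t with h0 | h0
    · exfalso
      apply ht.ne
      rw [h0]
      simp
    · exact h0
  have hb := hN h w j t hh hw ht0
  refine le_trans (le_of_eq ?_) hb
  have hsum : ∑ z ∈ (lc h j).filter (rgh w), hk χ i.2.2 z * conj (psi i z) =
      ∑ z ∈ (lc h j).filter (rgh w), if IsCoprime z ((t : ℕ) : Gi) then (1 : ℂ) else 0 := by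
    refine Finset.sum_congr rfl fun z hz => ?_
    rw [Finset.mem_filter] at hz
    have hz0 : z ≠ 0 := by
      have := hz.1
      unfold lc at this
      rw [Finset.mem_filter, mem_disc] at this
      exact this.1.1
    exact KHEM.term hNRM hi ht hiw he hz0 hz.2
  rw [hsum, Finset.sum_boole]
  have hcard := Finset.card_filter_add_card_filter_not (s := (lc h j).filter (rgh w))
    (fun z => IsCoprime z ((t : ℕ) : Gi))
  have hset : ((lc h j).filter (rgh w)).filter (fun z => ¬ IsCoprime z ((t : ℕ) : Gi)) =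
      (lc h j).filter (fun z => rgh w z ∧ ¬ IsCoprime z ((t : ℕ) : Gi)) := by
    rw [Finset.filter_filter]
  rw [hset] at hcard
  rw [← hcard]
  push_cast
  rw [sub_add_cancel_left, norm_neg]
  simp

end Pool.Agent.Lib.MP391708.X
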