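import Pool.Agent.Lib.MP_391708_nt.X.SpecBR
import Pool.Agent.Lib.MP_391708_nt.MR.Basic

/-!
# Theorem X of MP_391708_nt, part BR, module KPD (helper58)

The transform of `kap` at a character different from all of `U`.
-/

set_option autoImplicit false

namespace Pool.Agent.Lib.MP391708.X

open Pool.Agent.Lib.MP391708.MR
open Finset Filter Topology
open scoped ComplexConjugate

namespace KPDM

lemma lc_subset (h : ℝ) (j : ℕ) (X : ℝ) (hX : Real.exp ((j + 1) / h) ≤ X) : lc h j ⊆ disc X :=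
  (filter_subset _ _).trans (disc_subset hX)

open scoped Classical in
/-- the sum over a disc of a function supported on the rough elements of a cell -/
lemma sum_kap (p : Par) (U : Finset Ix) (v4 v2 : ℕ) (X : ℝ) (f : Gi → ℂ)
    (hX : Real.exp (((v4 + v2 : ℕ) + 1) / p.h) ≤ X) :
    ∑ z ∈ disc X, kap p U v4 v2 z * f z =
      ∑ i ∈ U, cc p i v4 v2 * ∑ z ∈ (lc p.h (v4 + v2)).filter (rgh p.w), f z * conj (psi i z) := by
  have h1 : ∑ z ∈ disc X, kap p U v4 v2 z * f z =
      ∑ z ∈ (lc p.h (v4 + v2)).filter (rgh p.w), kap p U v4 v2 z * f z := by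
    symm
    apply sum_subset
    · exact (filter_subset _ _).trans (lc_subset _ _ _ hX)
    · intro z _ hz
      rw [mem_filter] at hz
      unfold kap
      rw [if_neg hz, zero_mul]
  rw [h1]
  have h2 : ∑ z ∈ (lc p.h (v4 + v2)).filter (rgh p.w), kap p U v4 v2 z * f z =
      ∑ z ∈ (lc p.h (v4 + v2)).filter (rgh p.w),
        ∑ i ∈ U, cc p i v4 v2 * (f z * conj (psi i z)) := by
    apply sum_congr rfl
    intro z hz
    rw [mem_filter] at hz
    unfold kap
    rw [if_pos hz, sum_mul]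
    apply sum_congr rfl
    intro i _
    ring
  rw [h2, sum_comm]
  apply sum_congr rfl
  intro i _
  rw [mul_sum]

end KPDM

open KPDM in
open scoped Classical in
theorem specKPD (hD : SpecKHD) : SpecKPD := by
  intro A A' hA hA'
  obtain ⟨c, hc, hc1, hx⟩ := hD A A' hA hA'
  refine ⟨c, hc, hc1, ?_⟩
  filter_upwards [hx] with x hx
  intro p U W t χ k v4 v2 X hU hχ ht hk' hdist hw hh hX hXx
  have hX' : Real.exp (((v4 + v2 : ℕ) + 1) / p.h) ≤ X := by
    push_cast
    exact hX
  rw [sum_kap p U v4 v2 X _ hX', sum_mul]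
  refine (norm_sum_le _ _).trans (sum_le_sum fun i hi => ?_)
  rw [norm_mul]
  obtain ⟨-, h2, h3⟩ := hU.ch i hi
  refine mul_le_mul_of_nonneg_left ?_ (norm_nonneg _)
  exact hx i t χ k p.h p.w (v4 + v2) h3 hχ h2 ht (hU.frq i hi) hk' (hdist i hi) hw hh
    (hX'.trans hXx)

end Pool.Agent.Lib.MP391708.X
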