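import Pool.Agent.Lib.MP_391708_nt.X.SpecBR
import Pool.Agent.Lib.MP_391708_nt.MR.Basic

/-!
# Theorem X, module KPE (helper21): the transform of `eta - kap` at a character equivalent to an
element of `U`
-/

set_option autoImplicit false

namespace Pool.Agent.Lib.MP391708.X

open Pool.Agent.Lib.MP391708.MR
open Finset Filter Topology
open scoped ComplexConjugate

namespace KPEM

theorem nm_nat (t : ℕ) : nm ((t : ℕ) : Gi) = t ^ 2 := by
  have h := nm_cast ((t : ℕ) : Gi)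
  have h1 : ((t : ℕ) : Gi).re = t := by simp
  have h2 : ((t : ℕ) : Gi).im = 0 := by simp
  rw [h1, h2] at h
  have h3 : ((nm ((t : ℕ) : Gi) : ℕ) : ℤ) = ((t ^ 2 : ℕ) : ℤ) := by
    rw [h]
    push_cast
    ring
  exact_mod_cast h3

theorem pos_of_ChiG {t : ℕ} {χ : Gi → ℂ} (h : ChiG ((t : ℕ) : Gi) χ) : 0 < t := by
  rcases Nat.eq_zero_or_pos t with h0 | h0
  · exact absurd (by rw [h0]; simp) h.ne
  · exact h0

/-- a prime of norm larger than `t ^ 2` is coprime to `t` -/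
theorem cop {P Q : ℝ} {π : Gi} (hπ : π ∈ GP P Q) {t : ℕ} (ht : 0 < t) (h : (t : ℝ) ^ 2 ≤ P) :
    IsCoprime π ((t : ℕ) : Gi) := by
  rw [Prime.coprime_iff_not_dvd (GP_prime hπ)]
  intro hd
  have h1 := nm_dvd hd
  rw [nm_nat] at h1
  have h2 := Nat.le_of_dvd (by positivity) h1
  have h3 := (mem_GP.1 hπ).2.2.2.2.1
  have h4 : (nm π : ℝ) ≤ (t : ℝ) ^ 2 := by exact_mod_cast h2
  linarith

theorem hk_eq {z : Gi} {χ χ' : Gi → ℂ} {k : ℤ} (he : Eqv χ χ') (h : χ z ≠ 0) (h' : χ' z ≠ 0) :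
    hk χ k z = hk χ' k z := by
  unfold hk
  rw [he z h h']

theorem cop_I (m : Gi) : IsCoprime (⟨0, 1⟩ : Gi) m :=
  ⟨⟨0, -1⟩, 0, by ext <;> simp⟩

theorem cell_le {h P Q : ℝ} {v : ℕ} {π : Gi} (hh : 0 < h) (hπ : π ∈ cell h P Q v) :
    (nm π : ℝ) ≤ Real.exp ((v + 1) / h) := by
  unfold cell at hπ
  rw [mem_filter] at hπ
  have h0 := nm_posR (GP_ne_zero hπ.1)
  have h1 := Nat.lt_floor_add_one (h * Real.log (nm π))
  rw [hπ.2] at h1
  have h2 : Real.log (nm π) ≤ (v + 1) / h := by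
    rw [le_div_iff₀ hh]
    linarith
  rwa [Real.log_le_iff_le_exp h0] at h2

theorem cell_GP {h P Q : ℝ} {v : ℕ} {π : Gi} (hπ : π ∈ cell h P Q v) : π ∈ GP P Q := by
  unfold cell at hπ
  exact (mem_filter.1 hπ).1

theorem Eqv.symm {χ χ' : Gi → ℂ} (h : Eqv χ χ') : Eqv χ' χ := fun z h1 h2 => (h z h2 h1).symm

theorem not_dist {χ χ' : Gi → ℂ} {k k' : ℤ} (h : ¬ Dist χ χ' k k') : k = k' ∧ Eqv χ χ' := by
  unfold Dist at h
  push Not at h
  exact h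

open scoped Classical in
theorem kap_sum (p : Par) (U : Finset Ix) (v4 v2 : ℕ) (X : ℝ) (ψ : Gi → ℂ)
    (hX : Real.exp ((v4 + v2 + 1) / p.h) ≤ X) :
    ∑ z ∈ disc X, kap p U v4 v2 z * ψ z = ∑ i ∈ U, cc p i v4 v2 *
      ∑ z ∈ (lc p.h (v4 + v2)).filter (rgh p.w), ψ z * conj (psi i z) := by
  have hS : (lc p.h (v4 + v2)).filter (rgh p.w) ⊆ disc X := by
    intro z hz
    rw [mem_filter] at hz
    have h1 := hz.1
    unfold lc at h1
    rw [mem_filter] at h1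
    refine disc_subset ?_ h1.1
    push_cast
    exact hX
  rw [← Finset.sum_subset hS (fun z _ hz => by
    have h1 : kap p U v4 v2 z = 0 := by
      unfold kap
      rw [if_neg]
      intro h2
      exact hz (mem_filter.2 h2)
    rw [h1, zero_mul])]
  calc _ = ∑ z ∈ (lc p.h (v4 + v2)).filter (rgh p.w),
        ∑ i ∈ U, cc p i v4 v2 * (ψ z * conj (psi i z)) := by
        refine Finset.sum_congr rfl fun z hz => ?_
        unfold kap
        rw [if_pos (mem_filter.1 hz), Finset.sum_mul]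
        refine Finset.sum_congr rfl fun i _ => ?_
        ring
    _ = _ := by
        rw [Finset.sum_comm]
        refine Finset.sum_congr rfl fun i _ => ?_
        rw [Finset.mul_sum]

theorem final (U : Finset Ix) (i₀ : Ix) (h0 : i₀ ∈ U) (cf E : Ix → ℂ) (S R : ℂ) (a b : ℝ)
    (ha : 0 ≤ a) (hS : cf i₀ * R = S) (h1 : ∀ i ∈ U, i ≠ i₀ → ‖E i‖ ≤ a) (h2 : ‖E i₀ - R‖ ≤ b) :
    ‖S - ∑ i ∈ U, cf i * E i‖ ≤ (∑ i ∈ U, ‖cf i‖) * a + ‖cf i₀‖ * b := by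
  classical
  have e1 : S - ∑ i ∈ U, cf i * E i =
      -(cf i₀ * (E i₀ - R)) - ∑ i ∈ U.erase i₀, cf i * E i := by
    rw [← Finset.add_sum_erase U _ h0, ← hS]
    ring
  rw [e1]
  have h3 : ‖∑ i ∈ U.erase i₀, cf i * E i‖ ≤ (∑ i ∈ U, ‖cf i‖) * a := by
    refine (norm_sum_le _ _).trans ?_
    rw [Finset.sum_mul]
    refine (Finset.sum_le_sum (g := fun i => ‖cf i‖ * a) fun i hi => ?_).trans
      (Finset.sum_le_sum_of_subset_of_nonneg (Finset.erase_subset _ _)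
        fun i _ _ => mul_nonneg (norm_nonneg _) ha)
    rw [norm_mul]
    exact mul_le_mul_of_nonneg_left (h1 i (Finset.mem_of_mem_erase hi)
      (Finset.ne_of_mem_erase hi)) (norm_nonneg _)
  have h4 : ‖-(cf i₀ * (E i₀ - R))‖ ≤ ‖cf i₀‖ * b := by
    rw [norm_neg, norm_mul]
    exact mul_le_mul_of_nonneg_left h2 (norm_nonneg _)
  have h5 := norm_sub_le (-(cf i₀ * (E i₀ - R))) (∑ i ∈ U.erase i₀, cf i * E i)
  linarith

end KPEM

open KPEM

open scoped Classical in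
theorem specKPE (hEQT : SpecEQT) (hNRM : SpecNRM) (hKHD : SpecKHD) (hKHE : SpecKHE)
    (hETH : SpecETH) : SpecKPE := by
  intro A A' hA hA'
  obtain ⟨c, hc0, hc1, hev⟩ := hKHD A A' hA hA'
  obtain ⟨C, hC, hE⟩ := hKHE
  refine ⟨c, C, hc0, hc1, hC, ?_⟩
  have hlog : ∀ᶠ x : ℝ in atTop, Real.log x ^ A' ≤ x ^ c := by
    have h1 := (isLittleO_log_rpow_rpow_atTop A' hc0).bound (zero_lt_one)
    filter_upwards [h1, eventually_ge_atTop (1 : ℝ)] with x hx hx1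
    rw [one_mul, Real.norm_eq_abs, Real.norm_eq_abs,
      abs_of_nonneg (Real.rpow_nonneg (by linarith) c)] at hx
    exact (le_abs_self _).trans hx
  filter_upwards [hev, hlog, eventually_ge_atTop (1 : ℝ)] with x hx hxl hx1
  intro p U Q W i₀ t χ k v4 v2 X hU hi₀ hχ ht hQw ht4 ht2 hQ4 hQ2 hk0 hnd hw hh hw1 hRR hX1 hX2
  obtain ⟨rfl, he⟩ := not_dist hnd
  obtain ⟨hi1, hiQ, hic⟩ := hU.ch i₀ hi₀
  have hh0 : 0 < p.h := by linarith
  have ht0 := pos_of_ChiG hχ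
  have hX0 : Real.exp ((v4 + v2 + 1) / p.h) ≤ X := by
    refine (Real.exp_le_exp.2 ?_).trans hX1
    gcongr
    norm_num
  have hsq : ∀ i ∈ U, (i.1 : ℝ) ^ 2 ≤ Q ^ 2 := fun i hi =>
    pow_le_pow_left₀ (by positivity) (hU.ch i hi).2.1 2
  -- the unit
  have hI1 : hk χ i₀.2.2 ⟨0, 1⟩ = 1 := by
    rw [hk_eq he ((hχ.supp _).2 (cop_I _)) ((hic.supp _).2 (cop_I _))]
    exact hU.adm i₀ hi₀
  have hval : ∀ (P : ℝ) (v : ℕ), (t : ℝ) ^ 2 ≤ P → Q ^ 2 ≤ P →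
      ∑ π ∈ cell p.h P (2 * P) v, hk χ i₀.2.2 π = ∑ π ∈ cell p.h P (2 * P) v, psi i₀ π := by
    intro P v h1 h2
    refine Finset.sum_congr rfl fun π hπ => ?_
    exact hk_eq he ((hχ.supp _).2 (cop (cell_GP hπ) ht0 h1))
      ((hic.supp _).2 (cop (cell_GP hπ) (by omega) ((hsq i₀ hi₀).trans h2)))
  -- the transform of eta
  have hT := hETH p v4 v2 (hk χ i₀.2.2) X ((hNRM _ χ hχ).2.2 i₀.2.2) hI1 (by
    intro π hπ π' hπ'
    rw [nm_mul]
    push_cast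
    refine le_trans ?_ hX1
    have h1 := cell_le hh0 hπ
    have h2 := cell_le hh0 hπ'
    calc (nm π : ℝ) * nm π' ≤ Real.exp ((v4 + 1) / p.h) * Real.exp ((v2 + 1) / p.h) :=
          mul_le_mul h1 h2 (by positivity) (by positivity)
      _ = _ := by
          rw [← Real.exp_add]
          congr 1
          ring)
  rw [hval _ _ ht4 hQ4, hval _ _ ht2 hQ2] at hT
  have hK := kap_sum p U v4 v2 X (hk χ i₀.2.2) hX0
  have hsplit : ∑ z ∈ disc X, (eta p v4 v2 z - kap p U v4 v2 z) * hk χ i₀.2.2 z =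
      S4 p i₀ v4 * S2 p i₀ v2 - ∑ i ∈ U, cc p i v4 v2 *
        ∑ z ∈ (lc p.h (v4 + v2)).filter (rgh p.w), hk χ i₀.2.2 z * conj (psi i z) := by
    rw [← hK]
    simp only [sub_mul, Finset.sum_sub_distrib]
    rw [hT]
    rfl
  rw [hsplit]
  have hcast : (((v4 + v2 : ℕ) : ℕ) : ℝ) = (v4 : ℝ) + v2 := by push_cast; ring
  refine final U i₀ hi₀ (fun i => cc p i v4 v2) _ _ (RR p (v4 + v2) : ℂ) (x ^ (1 - c)) _
    (Real.rpow_nonneg (by linarith) _) ?_ ?_ ?_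
  · change S4 p i₀ v4 * S2 p i₀ v2 / (RR p (v4 + v2) : ℂ) * (RR p (v4 + v2) : ℂ) = _
    rw [div_mul_cancel₀]
    exact_mod_cast hRR
  · intro i hi hne
    obtain ⟨hj1, hjQ, hjc⟩ := hU.ch i hi
    have hD : Dist χ i.2.1 i₀.2.2 i.2.2 := by
      by_contra hcon
      obtain ⟨h1, h2⟩ := not_dist hcon
      have h3 := hU.dif i₀ hi₀ i hi (Ne.symm hne)
      have h4 : Eqv i₀.2.1 i.2.1 := hEQT _ _ _ _ _ _ hic hχ hjc (Eqv.symm he) h2
      rcases h3 with h5 | ⟨z, h5, h6, h7⟩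
      · exact h5 h1
      · exact h7 (h4 z h5 h6)
    have hj2 : (i.1 : ℝ) ≤ x ^ c := by
      have h1 : (1 : ℝ) ≤ i.1 := by exact_mod_cast hj1
      have h2 := hsq i hi
      nlinarith
    refine hx i t χ i₀.2.2 p.h p.w (v4 + v2) hjc hχ hj2 ht (hU.frq i hi) (hU.frq i₀ hi₀) hD hw hh0 ?_
    rw [hcast]
    exact hX0.trans hX2
  · have h1 := hE i₀ t χ p.h p.w (v4 + v2) hic hχ ((hsq i₀ hi₀).trans hQw) he hh hw1
    rw [hcast] at h1
    unfold RR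
    rw [Complex.ofReal_natCast]
    exact h1

end Pool.Agent.Lib.MP391708.X
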