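import Pool.Agent.Lib.MP_391708_nt.X.SpecBR
import Pool.Agent.Lib.MP_391708_nt.MR.Basic

/-!
# Theorem X, part BR: module LCA (a lattice cell is an annulus) (helper15)
-/

set_option autoImplicit false

namespace Pool.Agent.Lib.MP391708.X

open Pool.Agent.Lib.MP391708.MR
open Finset Filter Topology
open scoped ComplexConjugate

namespace LCAM

lemma floor_iff {h : ℝ} (hh : 0 < h) (j n : ℕ) (hn : 1 ≤ n) :
    ⌊h * Real.log n⌋₊ = j ↔ Real.exp (j / h) ≤ n ∧ (n : ℝ) < Real.exp ((j + 1) / h) := by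
  have hn0 : (0 : ℝ) < n := by exact_mod_cast hn
  have h0 : 0 ≤ h * Real.log n := mul_nonneg hh.le (Real.log_natCast_nonneg n)
  rw [Nat.floor_eq_iff h0, ← Real.le_log_iff_exp_le hn0, ← Real.log_lt_iff_lt_exp hn0,
    div_le_iff₀ hh, lt_div_iff₀ hh, mul_comm h]

end LCAM

/-- **LCA** -/
theorem specLCA : SpecLCA := by
  intro h j hh
  have e1 : (1 : ℝ) ≤ Real.exp (j / h) := Real.one_le_exp (by positivity)
  have e2 : Real.exp (j / h) ≤ Real.exp ((j + 1) / h) :=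
    Real.exp_le_exp.2 (div_le_div_of_nonneg_right (by linarith) hh.le)
  have a1 : 1 ≤ ⌈Real.exp (j / h)⌉₊ := Nat.one_le_ceil_iff.2 (Real.exp_pos _)
  have a2 : ⌈Real.exp (j / h)⌉₊ ≤ ⌈Real.exp ((j + 1) / h)⌉₊ := Nat.ceil_mono e2
  have b1 := Nat.ceil_lt_add_one (Real.exp_pos (j / h)).le
  have b2 := Nat.ceil_lt_add_one (Real.exp_pos ((j + 1) / h)).le
  have c1 := Nat.le_ceil (Real.exp (j / h))
  have c2 := Nat.le_ceil (Real.exp ((j + 1) / h))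
  have a1' : (1 : ℝ) ≤ ⌈Real.exp (j / h)⌉₊ := by exact_mod_cast a1
  have a2' : (⌈Real.exp (j / h)⌉₊ : ℝ) ≤ ⌈Real.exp ((j + 1) / h)⌉₊ := by exact_mod_cast a2
  refine ⟨(⌈Real.exp (j / h)⌉₊ : ℝ) - 1, (⌈Real.exp ((j + 1) / h)⌉₊ : ℝ) - 1, by linarith,
    by linarith, by linarith, by linarith, by linarith, by linarith, ?_⟩
  ext z
  unfold lc
  rw [mem_filter, mem_disc, mem_ann]
  constructor
  · rintro ⟨⟨hz, -⟩, hf⟩
    have hn : 1 ≤ nm z := nm_pos hz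
    obtain ⟨h1, h2⟩ := (LCAM.floor_iff hh j (nm z) hn).1 hf
    have h3 : ⌈Real.exp (j / h)⌉₊ ≤ nm z := Nat.ceil_le.2 h1
    have h4 : nm z < ⌈Real.exp ((j + 1) / h)⌉₊ := Nat.lt_ceil.2 h2
    have h3' : (⌈Real.exp (j / h)⌉₊ : ℝ) ≤ nm z := by exact_mod_cast h3
    have h4' : (nm z : ℝ) + 1 ≤ ⌈Real.exp ((j + 1) / h)⌉₊ := by exact_mod_cast h4
    exact ⟨hz, by linarith, by linarith⟩
  · rintro ⟨hz, h1, h2⟩
    have hn : 1 ≤ nm z := nm_pos hz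
    have h3 : (⌈Real.exp (j / h)⌉₊ : ℝ) < ((nm z + 1 : ℕ) : ℝ) := by
      push_cast
      linarith
    have h3' : ⌈Real.exp (j / h)⌉₊ ≤ nm z := Nat.lt_succ_iff.1 (by exact_mod_cast h3)
    have h4 : ((nm z + 1 : ℕ) : ℝ) ≤ ⌈Real.exp ((j + 1) / h)⌉₊ := by
      push_cast
      linarith
    have h4' : nm z < ⌈Real.exp ((j + 1) / h)⌉₊ := by exact_mod_cast h4
    have h5 := Nat.ceil_le.1 h3'
    have h6 := Nat.lt_ceil.1 h4'
    exact ⟨⟨hz, h6.le⟩, (LCAM.floor_iff hh j (nm z) hn).2 ⟨h5, h6⟩⟩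

end Pool.Agent.Lib.MP391708.X
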