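import Pool.Agent.Lib.MP_391708_nt.X.SpecBR

/-! MP_391708, Theorem X, part BR, module LFT (helper86): lifting of coprime residues. -/

set_option autoImplicit false

namespace Pool.Agent.Lib.MP391708.X

open Pool.Agent.Lib.MP391708.MR
open Finset Filter Topology
open scoped ComplexConjugate

theorem specLFT : SpecLFT := by
  classical
  intro g n x hn hxg
  refine ⟨((UniqueFactorizationMonoid.factors n).filter (fun p => ¬ p ∣ x)).prod, ?_⟩
  set y : Gi := ((UniqueFactorizationMonoid.factors n).filter (fun p => ¬ p ∣ x)).prod with hy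
  apply isCoprime_of_prime_dvd
  · rintro ⟨_, h⟩
    exact hn h
  · intro π hπ h1 h2
    by_cases hx : π ∣ x
    · have hgy : π ∣ g * y := (dvd_add_right hx).mp h1
      have hg : ¬ π ∣ g := by
        intro hg
        obtain ⟨a, b, hab⟩ := hxg
        have : π ∣ 1 := by
          rw [← hab]
          exact dvd_add (dvd_mul_of_dvd_right hx a) (dvd_mul_of_dvd_right hg b)
        exact hπ.not_isUnit (isUnit_of_dvd_one this)
      have hpy : π ∣ y := (hπ.dvd_or_dvd hgy).resolve_left hg
      obtain ⟨q, hq, hpq⟩ := hπ.exists_mem_multiset_dvd hpy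
      rw [Multiset.mem_filter] at hq
      have hqi : Irreducible q := UniqueFactorizationMonoid.irreducible_of_factor q hq.1
      have hass : Associated π q := hπ.irreducible.associated_of_dvd hqi hpq
      exact hq.2 (hass.symm.dvd.trans hx)
    · obtain ⟨q, hq, hass⟩ := UniqueFactorizationMonoid.exists_mem_factors_of_dvd hn
        hπ.irreducible h2
      have hqx : ¬ q ∣ x := fun h => hx (hass.dvd.trans h)
      have hqy : q ∣ y := Multiset.dvd_prod (Multiset.mem_filter.mpr ⟨hq, hqx⟩)
      have hpy : π ∣ g * y := dvd_mul_of_dvd_right (hass.dvd.trans hqy) g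
      exact hx ((dvd_add_left hpy).mp h1)

end Pool.Agent.Lib.MP391708.X
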