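import Pool.Agent.Lib.MP_391708_nt.X.SpecBR
import Pool.Agent.Lib.MP_391708_nt.MR.Basic

/-!
# Theorem X, part BR, module NCL: the elements of a cell which are rough and not coprime to `t`
-/

set_option autoImplicit false

namespace Pool.Agent.Lib.MP391708.X

open Pool.Agent.Lib.MP391708.MR
open Finset Filter Topology
open scoped ComplexConjugate

namespace NCLM

/-- the number of elements of an annulus -/
theorem card_ann {C : ℝ} (hC : ∀ Y : ℝ, 0 ≤ Y → |((disc Y).card : ℝ) - Real.pi * Y| ≤
    C * (Real.sqrt Y + 1)) (hC0 : 0 < C) {a b : ℝ} (ha : 0 ≤ a) (hab : a ≤ b) :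
    ((ann a b).card : ℝ) ≤ Real.pi * (b - a) + 2 * C * (Real.sqrt b + 1) := by
  have h1 : (disc b).card = (disc a).card + (ann a b).card := by
    rw [disc_union hab, card_union_of_disjoint (disc_disjoint a b)]
  have h2 : ((ann a b).card : ℝ) = (disc b).card - (disc a).card := by
    rw [h1]
    push_cast
    ring
  have h3 := (abs_le.1 (hC b (ha.trans hab))).2
  have h4 := (abs_le.1 (hC a ha)).1
  have h5 : Real.sqrt a ≤ Real.sqrt b := Real.sqrt_le_sqrt hab
  rw [h2]
  nlinarith [mul_le_mul_of_nonneg_left h5 hC0.le]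

/-- the multiples of `π` in an annulus -/
theorem card_mul (π : Gi) (hπ : π ≠ 0) (y y' : ℝ) [DecidablePred fun z : Gi => π ∣ z] :
    ((ann y y').filter (fun z => π ∣ z)).card ≤ (ann (y / nm π) (y' / nm π)).card := by
  classical
  have hn : (0 : ℝ) < nm π := nm_posR hπ
  refine (card_le_card (t := (ann (y / nm π) (y' / nm π)).image (fun z => π * z)) ?_).trans
    card_image_le
  intro z hz
  obtain ⟨hz1, z', rfl⟩ := mem_filter.1 hz
  obtain ⟨h0, h1, h2⟩ := mem_ann.1 hz1
  refine mem_image.2 ⟨z', mem_ann.2 ⟨fun h => h0 (by rw [h, mul_zero]), ?_, ?_⟩, rfl⟩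
  · rw [nm_mul] at h1
    push_cast at h1
    rw [div_lt_iff₀ hn]
    linarith
  · rw [nm_mul] at h2
    push_cast at h2
    rw [le_div_iff₀ hn]
    linarith

theorem prod_nm (s : Multiset Gi) : nm s.prod = (s.map nm).prod := by
  induction s using Multiset.induction_on with
  | empty => simp [nm]
  | cons a s ih => rw [Multiset.prod_cons, nm_mul, ih, Multiset.map_cons, Multiset.prod_cons]

/-- the number of prime factors -/
theorem card_factors (t : ℕ) (ht : 0 < t) :
    ((Multiset.card (UniqueFactorizationMonoid.factors ((t : ℕ) : Gi)) : ℕ) : ℝ) ≤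
      3 * Real.log t := by
  have ht0 : ((t : ℕ) : Gi) ≠ 0 := by
    exact_mod_cast ht.ne'
  set s := UniqueFactorizationMonoid.factors ((t : ℕ) : Gi) with hs
  have h1 : Associated s.prod ((t : ℕ) : Gi) := UniqueFactorizationMonoid.factors_prod ht0
  have h2 : nm s.prod = t ^ 2 := by
    have h3 : nm s.prod = nm ((t : ℕ) : Gi) :=
      Nat.dvd_antisymm (nm_dvd h1.dvd) (nm_dvd h1.symm.dvd)
    rw [h3]
    unfold nm
    simp [Int.natAbs_pow]
  have h4 : ∀ p ∈ s, 2 ≤ nm p := by
    intro p hp
    have hpr := UniqueFactorizationMonoid.prime_of_factor p hp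
    have h5 := nm_pos hpr.ne_zero
    have h6 : nm p ≠ 1 := fun h => hpr.not_isUnit (isUnit_iff_nm.2 h)
    omega
  have h5 : 2 ^ (Multiset.card s) ≤ t ^ 2 := by
    rw [← h2, prod_nm]
    have key : ∀ u : Multiset Gi, (∀ p ∈ u, 2 ≤ nm p) → 2 ^ (Multiset.card u) ≤ (u.map nm).prod := by
      intro u
      induction u using Multiset.induction_on with
      | empty => intro _; simp
      | cons a u ih =>
        intro h
        rw [Multiset.card_cons, Multiset.map_cons, Multiset.prod_cons, pow_succ, mul_comm]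
        exact Nat.mul_le_mul (h a (Multiset.mem_cons_self a u))
          (ih fun p hp => h p (Multiset.mem_cons_of_mem hp))
    exact key s h4
  have h6 : (2 : ℝ) ^ (Multiset.card s) ≤ (t : ℝ) ^ 2 := by exact_mod_cast h5
  have h7 := Real.log_le_log (by positivity) h6
  rw [Real.log_pow, Real.log_pow] at h7
  push_cast at h7
  have h8 : (0.6931471803 : ℝ) < Real.log 2 := Real.log_two_gt_d9
  have h9 : 0 ≤ Real.log t := Real.log_natCast_nonneg t
  have h10 : (0 : ℝ) ≤ (Multiset.card s : ℕ) := by positivity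
  nlinarith

end NCLM

open scoped Classical in
theorem specNCL (hCTU : SpecCTU) (hLCA : SpecLCA) : SpecNCL := by
  obtain ⟨C, hC0, hC⟩ := hCTU
  have hC' : ∀ Y : ℝ, 0 ≤ Y → |((disc Y).card : ℝ) - Real.pi * Y| ≤ C * (Real.sqrt Y + 1) := by
    intro Y hY
    have h1 := hC 1 one_pos 0 Y hY
    have h2 : (disc Y).filter (fun z => ((1 : ℕ) : ℤ) ∣ z.re - (0 : Gi).re ∧
        ((1 : ℕ) : ℤ) ∣ z.im - (0 : Gi).im) = disc Y :=
      filter_true_of_mem fun z _ => ⟨by simp, by simp⟩
    rw [h2] at h1
    simpa using h1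
  refine ⟨3 * (Real.pi + 4 * C), by positivity, fun h w j t hh hw ht => ?_⟩
  obtain ⟨y, y', hy0, hyy, hy1, hy2, hy3, hy4, hlc⟩ := hLCA h j (by linarith)
  set E : ℝ := Real.exp ((j + 1) / h) with hE
  have hh0 : (0 : ℝ) < h := by linarith
  have hw0 : (0 : ℝ) < w := by linarith
  have hE1 : 1 ≤ E := by
    rw [hE]
    apply Real.one_le_exp
    positivity
  have hsE : 1 ≤ Real.sqrt E := by
    rw [Real.one_le_sqrt]
    exact hE1
  have hwid : y' - y ≤ E / h + 1 := by
    have h1 : Real.exp (j / h) = E * Real.exp (-(1 / h)) := by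
      rw [hE, ← Real.exp_add]
      congr 1
      field_simp
      ring
    have h2 : 1 - 1 / h ≤ Real.exp (-(1 / h)) := by
      have := Real.add_one_le_exp (-(1 / h))
      linarith
    have h3 : E * (1 - 1 / h) ≤ Real.exp (j / h) := by
      rw [h1]
      exact mul_le_mul_of_nonneg_left h2 (by linarith)
    have h4 : E * (1 - 1 / h) = E - E / h := by ring
    linarith
  have ht0 : ((t : ℕ) : Gi) ≠ 0 := by exact_mod_cast ht.ne'
  set s := UniqueFactorizationMonoid.factors ((t : ℕ) : Gi) with hs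
  set F : Finset Gi := s.toFinset.filter (fun π => w < (nm π : ℝ)) with hF
  have hFc : (F.card : ℝ) ≤ 3 * Real.log t := by
    have h1 : F.card ≤ Multiset.card s :=
      (card_filter_le _ _).trans (Multiset.toFinset_card_le s)
    have h2 := NCLM.card_factors t ht
    have h3 : (F.card : ℝ) ≤ (Multiset.card s : ℕ) := by exact_mod_cast h1
    linarith
  have hsub : (lc h j).filter (fun z => rgh w z ∧ ¬ IsCoprime z ((t : ℕ) : Gi)) ⊆
      F.biUnion fun π => (ann y y').filter (fun z => π ∣ z) := by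
    intro z hz
    obtain ⟨hz1, hz2, hz3⟩ := mem_filter.1 hz
    rw [hlc] at hz1
    have hz0 : z ≠ 0 := (mem_ann.1 hz1).1
    obtain ⟨q, hq, hqz, hqt⟩ : ∃ q : Gi, Prime q ∧ q ∣ z ∧ q ∣ ((t : ℕ) : Gi) := by
      by_contra hcon
      push Not at hcon
      exact hz3 (isCoprime_of_prime_dvd (fun h => hz0 h.1) fun q hq h1 h2 => hcon q hq h1 h2)
    obtain ⟨π, hπ, hass⟩ := UniqueFactorizationMonoid.exists_mem_factors_of_dvd ht0
      hq.irreducible hqt
    have hπz : π ∣ z := hass.symm.dvd.trans hqz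
    have hπp : Prime π := UniqueFactorizationMonoid.prime_of_factor π hπ
    exact mem_biUnion.2 ⟨π, mem_filter.2 ⟨Multiset.mem_toFinset.2 hπ, hz2 π hπp hπz⟩,
      mem_filter.2 ⟨hz1, hπz⟩⟩
  have hcard : (((lc h j).filter (fun z => rgh w z ∧ ¬ IsCoprime z ((t : ℕ) : Gi))).card : ℝ) ≤
      ∑ π ∈ F, (((ann y y').filter (fun z => π ∣ z)).card : ℝ) := by
    have h1 := (card_le_card hsub).trans card_biUnion_le
    exact_mod_cast h1
  refine hcard.trans ?_
  have hone : ∀ π ∈ F, (((ann y y').filter (fun z => π ∣ z)).card : ℝ) ≤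
      (Real.pi + 4 * C) * (E / (h * w) + Real.sqrt E) := by
    intro π hπ
    obtain ⟨hπ1, hπ2⟩ := mem_filter.1 hπ
    have hπp : Prime π := UniqueFactorizationMonoid.prime_of_factor π (Multiset.mem_toFinset.1 hπ1)
    have hn : (0 : ℝ) < nm π := nm_posR hπp.ne_zero
    have h1 : (((ann y y').filter (fun z => π ∣ z)).card : ℝ) ≤
        (ann (y / nm π) (y' / nm π)).card := by
      exact_mod_cast NCLM.card_mul π hπp.ne_zero y y'
    have h2 := NCLM.card_ann hC' hC0 (a := y / nm π) (b := y' / nm π) (by positivity)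
      (by gcongr)
    have h3 : y' / nm π - y / nm π ≤ (E / h + 1) / w := by
      rw [← sub_div]
      have h4 : (y' - y) / nm π ≤ (E / h + 1) / nm π := by gcongr
      have h5 : (E / h + 1) / nm π ≤ (E / h + 1) / w := by
        have : 0 ≤ E / h + 1 := by positivity
        gcongr
      linarith
    have h4 : (E / h + 1) / w ≤ E / (h * w) + Real.sqrt E := by
      have h5 : (E / h + 1) / w = E / (h * w) + 1 / w := by
        field_simp
      have h6 : 1 / w ≤ 1 := by
        rw [div_le_one hw0]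
        exact hw
      rw [h5]
      linarith
    have h5 : Real.sqrt (y' / nm π) ≤ Real.sqrt E := by
      apply Real.sqrt_le_sqrt
      have h6 : y' / nm π ≤ y' := by
        apply div_le_self (hy0.trans hyy)
        exact one_le_nm hπp.ne_zero
      linarith
    have h6 : 0 ≤ E / (h * w) := by positivity
    have hpi := Real.pi_pos
    have h7 : Real.pi * (y' / nm π - y / nm π) ≤ Real.pi * (E / (h * w) + Real.sqrt E) :=
      mul_le_mul_of_nonneg_left (h3.trans h4) hpi.le
    have h8 : 2 * C * (Real.sqrt (y' / nm π) + 1) ≤ 2 * C * (2 * Real.sqrt E) := by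
      apply mul_le_mul_of_nonneg_left _ (by linarith)
      linarith
    have h9 : 2 * C * (2 * Real.sqrt E) ≤ 4 * C * (E / (h * w) + Real.sqrt E) := by
      nlinarith [mul_nonneg hC0.le h6]
    have h10 : (Real.pi + 4 * C) * (E / (h * w) + Real.sqrt E) =
        Real.pi * (E / (h * w) + Real.sqrt E) + 4 * C * (E / (h * w) + Real.sqrt E) := by ring
    rw [h10]
    linarith
  have hsum := sum_le_sum hone
  rw [sum_const, nsmul_eq_mul] at hsum
  refine hsum.trans ?_
  have hpos : 0 ≤ (Real.pi + 4 * C) * (E / (h * w) + Real.sqrt E) := by positivity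
  have h1 := mul_le_mul_of_nonneg_right hFc hpos
  have h2 : 3 * Real.log t * ((Real.pi + 4 * C) * (E / (h * w) + Real.sqrt E)) ≤
      3 * (1 + Real.log t) * ((Real.pi + 4 * C) * (E / (h * w) + Real.sqrt E)) := by
    apply mul_le_mul_of_nonneg_right _ hpos
    linarith
  calc (F.card : ℝ) * ((Real.pi + 4 * C) * (E / (h * w) + Real.sqrt E))
      ≤ 3 * (1 + Real.log t) * ((Real.pi + 4 * C) * (E / (h * w) + Real.sqrt E)) := h1.trans h2
    _ = 3 * (Real.pi + 4 * C) * (1 + Real.log t) * (E / (h * w) + Real.sqrt E) := by ring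

end Pool.Agent.Lib.MP391708.X
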