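import Pool.Agent.Lib.MP_391708_nt.X.SpecBR
import Pool.Agent.Lib.MP_391708_nt.MR.Basic

/-!
# THEOREM X (MP_391708), part BR, module NRM: values of characters (helper10)
-/

set_option autoImplicit false

namespace Pool.Agent.Lib.MP391708.X

open Finset Filter Topology Pool.Agent.Lib.MP391708.MR
open scoped ComplexConjugate

theorem specNRM : SpecNRM := by
  intro m χ h
  have hC : Chi χ := ⟨h.one, h.mul, ⟨m, h.ne, h.period, h.supp⟩⟩
  refine ⟨fun z => ?_, fun k z hz hχ => ?_, fun k x y => ?_⟩
  · by_cases hz : χ z = 0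
    · exact Or.inl hz
    · exact Or.inr (hC.norm_eq_one hz)
  · unfold hk
    rw [norm_mul, hC.norm_eq_one hχ, norm_xi k hz, mul_one]
  · unfold hk
    rw [h.mul, xi_mul]
    ring

end Pool.Agent.Lib.MP391708.X
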