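import Pool.Agent.Lib.MP_391708_nt.X.SpecBR

/-!
# Theorem X, part BR: module REP (representatives) (helper15)
-/

set_option autoImplicit false

namespace Pool.Agent.Lib.MP391708.X

open Pool.Agent.Lib.MP391708.MR
open Finset Filter Topology
open scoped ComplexConjugate

namespace REPB

lemma dist_symm {χ₁ χ₂ : Gi → ℂ} {k₁ k₂ : ℤ} (h : Dist χ₁ χ₂ k₁ k₂) : Dist χ₂ χ₁ k₂ k₁ := by
  rcases h with h | ⟨z, h1, h2, h3⟩
  · exact Or.inl (Ne.symm h)
  · exact Or.inr ⟨z, h2, h1, Ne.symm h3⟩

lemma dist_irrefl {χ : Gi → ℂ} {k : ℤ} : ¬ Dist χ χ k k := by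
  rintro (h | ⟨z, -, -, h⟩) <;> exact h rfl

end REPB

open REPB in
/-- **REP** -/
theorem specREP : SpecREP := by
  classical
  intro Q
  induction Q using Finset.induction_on with
  | empty => exact ⟨∅, Finset.Subset.refl _, by simp, by simp⟩
  | insert a Q ha ih =>
    obtain ⟨R, hR, hd, hr⟩ := ih
    by_cases h : ∃ r ∈ R, ¬ Dist a.2.1 r.2.1 a.2.2 r.2.2
    · refine ⟨R, hR.trans (subset_insert _ _), hd, fun q hq => ?_⟩
      rcases mem_insert.1 hq with rfl | hq
      · exact h
      · exact hr q hq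
    · push Not at h
      refine ⟨insert a R, insert_subset_insert _ hR, ?_, ?_⟩
      · intro i hi j hj hij
        rcases mem_insert.1 hi with rfl | hi' <;> rcases mem_insert.1 hj with rfl | hj'
        · exact absurd rfl hij
        · exact h j hj'
        · exact dist_symm (h i hi')
        · exact hd i hi' j hj' hij
      · intro q hq
        rcases mem_insert.1 hq with rfl | hq
        · exact ⟨_, mem_insert_self _ _, dist_irrefl⟩
        · obtain ⟨r, hr1, hr2⟩ := hr q hq
          exact ⟨r, mem_insert_of_mem hr1, hr2⟩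

end Pool.Agent.Lib.MP391708.X
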