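import Pool.Agent.Lib.MP_391708_nt.X.SpecBR
import Pool.Agent.Lib.MP_391708_nt.MR.Basic

/-!
# MP_391708, Theorem X, part BR, module RRC: the number of rough elements of a lattice cell
-/

set_option autoImplicit false

namespace Pool.Agent.Lib.MP391708.X

open Pool.Agent.Lib.MP391708.MR
open Finset Filter Topology
open scoped ComplexConjugate

namespace RRCM

lemma VP_nonneg (w : ℝ) : 0 ≤ VP w := by
  classical
  unfold VP
  apply prod_nonneg
  intro π hπ
  have h0 : π ≠ 0 := by
    unfold PI at hπ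
    rw [mem_filter, mem_disc] at hπ
    exact hπ.1.1
  have h1 := one_le_nm h0
  have h2 : 1 / (nm π : ℝ) ≤ 1 := by
    rw [div_le_one (by linarith)]
    exact h1
  linarith

lemma VP_le_one (w : ℝ) : VP w ≤ 1 := by
  classical
  unfold VP
  apply prod_le_one
  · intro π hπ
    have h0 : π ≠ 0 := by
      unfold PI at hπ
      rw [mem_filter, mem_disc] at hπ
      exact hπ.1.1
    have h1 := one_le_nm h0
    have h2 : 1 / (nm π : ℝ) ≤ 1 := by
      rw [div_le_one (by linarith)]
      exact h1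
    linarith
  · intro π hπ
    have : 0 ≤ 1 / (nm π : ℝ) := by positivity
    linarith

end RRCM

open RRCM in
theorem specRRC (hRG0 : SpecRG0) (hLCA : SpecLCA) : SpecRRC := by
  classical
  intro A hA
  obtain ⟨c₀, hc0, hc1, hev⟩ := hRG0 A hA
  refine ⟨c₀ / 2, by linarith, by linarith, ?_⟩
  filter_upwards [hev, (tendsto_rpow_atTop (show 0 < c₀ / 2 by linarith)).eventually_ge_atTop 5,
    eventually_ge_atTop 1] with x hx hx5 hx1
  intro p j hp hw hjx
  obtain ⟨y, y', hy0, hyy, h1, h2, h3, h4, hlc⟩ := hLCA p.h j hp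
  set a := Real.exp (j / p.h) with ha
  set b := Real.exp ((j + 1) / p.h) with hb
  have hS : ∀ z, z ∈ (lc p.h j).filter (rgh p.w) ↔ z ∈ ann y y' ∧ rgh p.w z := by
    intro z
    rw [mem_filter, hlc]
  have hmain := hx p.w y y' hw hy0 hyy (h1.trans hjx) _ hS
  have hRR : RR p j = (((lc p.h j).filter (rgh p.w)).card : ℝ) := by
    unfold RR
    congr!
  rw [hRR]
  have hV0 := VP_nonneg p.w
  have hV1 := VP_le_one p.w
  have hpi := Real.pi_pos
  have hpi4 := Real.pi_le_four
  have hdiff : |Real.pi * (y' - y) * VP p.w - Real.pi * (b - a) * VP p.w| ≤ 4 := by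
    have e : Real.pi * (y' - y) * VP p.w - Real.pi * (b - a) * VP p.w =
        Real.pi * VP p.w * ((y' - b) - (y - a)) := by ring
    rw [e, abs_mul, abs_of_nonneg (mul_nonneg hpi.le hV0)]
    have h5 : |(y' - b) - (y - a)| ≤ 1 := by
      rw [abs_le]
      constructor <;> linarith
    have h6 : Real.pi * VP p.w ≤ 4 := by nlinarith
    calc Real.pi * VP p.w * |(y' - b) - (y - a)| ≤ 4 * 1 :=
          mul_le_mul h6 h5 (abs_nonneg _) (by norm_num)
      _ = 4 := by norm_num
  have hfin : |(((lc p.h j).filter (rgh p.w)).card : ℝ) - Real.pi * (b - a) * VP p.w| ≤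
      x ^ (1 - c₀) + 4 := by
    have e : (((lc p.h j).filter (rgh p.w)).card : ℝ) - Real.pi * (b - a) * VP p.w =
        ((((lc p.h j).filter (rgh p.w)).card : ℝ) - Real.pi * (y' - y) * VP p.w) +
        (Real.pi * (y' - y) * VP p.w - Real.pi * (b - a) * VP p.w) := by ring
    rw [e]
    exact (abs_add_le _ _).trans (add_le_add hmain hdiff)
  refine hfin.trans ?_
  have h7 : (1 : ℝ) ≤ x ^ (1 - c₀) := Real.one_le_rpow hx1 (by linarith)
  have h8 : x ^ (1 - c₀ / 2) = x ^ (1 - c₀) * x ^ (c₀ / 2) := by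
    rw [← Real.rpow_add (by linarith)]
    congr 1
    ring
  rw [h8]
  nlinarith

end Pool.Agent.Lib.MP391708.X
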