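import Pool.Agent.Lib.MP_391708_nt.X.SpecBR
import Pool.Agent.Lib.MP_391708_nt.MR.Basic

/-!
# THEOREM X (MP_391708), part BR, module UIL: unit invariance (helper77)
-/

set_option autoImplicit false

namespace Pool.Agent.Lib.MP391708.X

open Finset Filter Topology Pool.Agent.Lib.MP391708.MR
open scoped ComplexConjugate

namespace UILM

theorem nmI (z : Gi) : nm ((⟨0, 1⟩ : Gi) * z) = nm z := by
  rw [nm_mul, nm_I, one_mul]

theorem unitI : IsUnit (⟨0, 1⟩ : Gi) := by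
  refine IsUnit.of_mul_eq_one (⟨0, -1⟩ : Gi) ?_
  rw [Zsqrtd.ext_iff]
  simp

theorem lcI (h : ℝ) (j : ℕ) (z : Gi) : (⟨0, 1⟩ : Gi) * z ∈ lc h j ↔ z ∈ lc h j := by
  unfold lc
  rw [mem_filter, mem_filter, mem_disc, mem_disc, nmI]
  have : (⟨0, 1⟩ : Gi) * z ≠ 0 ↔ z ≠ 0 := by
    rw [Ne, unitI.mul_right_eq_zero]
  rw [this]

theorem rghI (w : ℝ) (z : Gi) : rgh w ((⟨0, 1⟩ : Gi) * z) ↔ rgh w z := by
  unfold rgh
  refine forall_congr' fun π => forall_congr' fun _ => ?_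
  rw [IsUnit.dvd_mul_left unitI]

theorem assI (x z : Gi) : Associated x ((⟨0, 1⟩ : Gi) * z) ↔ Associated x z := by
  have h : Associated ((⟨0, 1⟩ : Gi) * z) z := (associated_isUnit_mul_left_iff unitI).2 (Associated.refl z)
  exact ⟨fun h1 => h1.trans h, fun h1 => h1.trans h.symm⟩

end UILM

open UILM

/-- **UIL**. -/
theorem specUIL : SpecUIL := by
  classical
  refine ⟨lcI, rghI, fun p v4 v2 z => ?_, fun p Q F W U v4 v2 z hU => ?_⟩
  · unfold eta
    simp only [assI]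
  · unfold kap
    simp only [lcI, rghI]
    refine if_congr Iff.rfl (Finset.sum_congr rfl fun i hi => ?_) rfl
    have h1 : psi i ((⟨0, 1⟩ : Gi) * z) = psi i ⟨0, 1⟩ * psi i z := by
      unfold psi hk
      rw [(hU.ch i hi).2.2.mul, xi_mul]
      ring
    rw [h1, hU.adm i hi, one_mul]

end Pool.Agent.Lib.MP391708.X
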