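import Pool.Agent.Lib.MP_391708_nt.X.SpecBR

/-!
# Theorem X of MP_391708_nt, module UIV: unit-invariant data against a function which is not unit-invariant
-/

set_option autoImplicit false

namespace Pool.Agent.Lib.MP391708.X

open Pool.Agent.Lib.MP391708.MR
open Finset Filter Topology
open scoped ComplexConjugate

/-- Unit-invariant data against a function which is not unit-invariant. -/
theorem specUIV : SpecUIV := by
  intro S f ψ hS hf hψ hi
  classical
  have hu : (⟨0, 1⟩ : Gi) ≠ 0 := by
    intro h
    have h1 := congrArg Zsqrtd.im h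
    simp at h1
  have hinj : Function.Injective (fun z : Gi => (⟨0, 1⟩ : Gi) * z) :=
    fun x y h => mul_left_cancel₀ hu h
  have himg : S.image (fun z : Gi => (⟨0, 1⟩ : Gi) * z) = S := by
    refine Finset.eq_of_subset_of_card_le ?_ ?_
    · intro y hy
      obtain ⟨z, hz, rfl⟩ := Finset.mem_image.1 hy
      exact hS z hz
    · rw [Finset.card_image_of_injective _ hinj]
  have h1 : ∑ z ∈ S, f z * ψ z = ψ ⟨0, 1⟩ * ∑ z ∈ S, f z * ψ z := by
    conv_lhs => rw [← himg]
    rw [Finset.sum_image (fun x _ y _ h => hinj h), Finset.mul_sum]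
    refine Finset.sum_congr rfl fun z hz => ?_
    rw [hf z hz, hψ z]
    ring
  have h2 : (1 - ψ ⟨0, 1⟩) * ∑ z ∈ S, f z * ψ z = 0 := by
    rw [sub_mul, one_mul, ← h1, sub_self]
  rcases mul_eq_zero.1 h2 with h | h
  · exact absurd (sub_eq_zero.1 h).symm hi
  · exact h

end Pool.Agent.Lib.MP391708.X
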