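import Pool.Agent.Lib.MP_391708_nt.X.SpecBR
import Pool.Agent.Lib.MP_391708_nt.X.VPL
import Pool.Agent.Lib.MP_391708_nt.MR.PG

set_option autoImplicit false

namespace Pool.Agent.Lib.MP391708.X

theorem specVPM : SpecVPM := specVPL MR.specPG

end Pool.Agent.Lib.MP391708.X
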